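import Mathlib
import Pool.Agent.H.MP_9fc12a_nt.B

namespace Pool.Agent.Results.MP_adc81a_nt.Double

open Polynomial

noncomputable def S (n : ℕ) : ℤ[X] := Nat.ofDigits (X : ℤ[X]) (Nat.digits 2 n)

noncomputable def H (n : ℕ) : ℤ[X] := (Matrix.of fun i j : Fin n => S (i + j)).det

open Pool.Agent.H.MP_9fc12a_nt in
lemma key {R : Type} [CommRing R] (t hf th : R) (he : (t + 1) ^ 2 = 0) (h2 : 2 * hf = 1)
    (h3 : 3 * th = 1) : Hk 55 (Pool.Agent.H.MP_9fc12a_nt.S t) = 0 := by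
  obtain ⟨e, rfl⟩ : ∃ e, t = e - 1 := ⟨t + 1, by ring⟩
  rw [sub_add_cancel] at he
  rw [show 55 = 2 ^ 5 + (2 ^ 4 + 6) + 1 by norm_num, H_eq _ _ _ (by norm_num),
    K_two _ 4 6 (by norm_num) _ _ (th + 16 * th ^ 2 * e) hf (by grind) h2,
    K_one _ 3 6 (by norm_num) _ _ (-2 * th - 20 * th ^ 2 * e) (by grind),
    K_one _ 2 _ (by norm_num) _ _ (th + 10 * th ^ 2 * e) (by grind),
    show 2 ^ 2 - 1 - (2 ^ 3 - 1 - 6) = 2 ^ 1 + 0 by norm_num,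
    K_two _ 1 0 (by norm_num) _ _ (-th - 7 * th ^ 2 * e) hf (by grind) h2,
    K_one _ 0 0 (by norm_num) _ _ (2 * th + 2 * th ^ 2 * e) (by grind),
    show 2 ^ 0 - 1 - 0 = 0 by norm_num, K_zero]
  iterate 5 refine mul_eq_zero_of_right _ ?_
  grind

lemma map_H {R : Type} [CommRing R] (f : ℤ[X] →+* R) (n : ℕ) :
    f (H n) = Pool.Agent.H.MP_9fc12a_nt.Hk n (Pool.Agent.H.MP_9fc12a_nt.S (f X)) := by
  have h1 := Pool.Agent.Lib.helper11.Det.map_D f n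
    (fun i j => Pool.Agent.H.MP_9fc12a_nt.S X (i + j))
  simp only [Pool.Agent.H.MP_9fc12a_nt.map_S] at h1
  exact h1

theorem result : ∃ (n : ℕ) (t : ℂ), 2 ≤ n ∧ t ≠ 0 ∧
    (∀ (ζ : ℂ) (m : ℕ), 1 ≤ m → ζ ^ m = 1 → t ≠ 2 * ζ) ∧ H n ≠ 0 ∧
    (X - C t) ^ 2 ∣ (H n).map (Int.castRingHom ℂ) := by
  refine ⟨55, -1, by norm_num, by norm_num, ?_, ?_, ?_⟩
  · intro ζ m hm h1 h2
    have h3 : ‖ζ‖ = 1 := Complex.norm_eq_one_of_pow_eq_one h1 (by omega)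
    have h4 := congrArg norm h2
    rw [norm_mul, h3] at h4
    norm_num at h4
  · intro h
    have h1 := map_H (eval₂RingHom (Int.castRingHom ℂ) 5) 55
    rw [h, map_zero, coe_eval₂RingHom, eval₂_X] at h1
    exact Pool.Agent.H.MP_9fc12a_nt.H_ne 5 (by norm_num) 55 (by norm_num) h1.symm
  · rw [← AdjoinRoot.mk_eq_zero]
    have h1 := map_H ((AdjoinRoot.mk ((X - C (-1 : ℂ)) ^ 2)).comp
      (mapRingHom (Int.castRingHom ℂ))) 55
    simp only [RingHom.comp_apply, coe_mapRingHom, map_X] at h1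
    rw [h1]
    refine key _ (AdjoinRoot.of _ (1 / 2)) (AdjoinRoot.of _ (1 / 3)) ?_ ?_ ?_
    · have := AdjoinRoot.mk_self (f := (X - C (-1 : ℂ)) ^ 2)
      simpa using this
    · rw [← map_ofNat (AdjoinRoot.of ((X - C (-1 : ℂ)) ^ 2)) 2, ← map_mul]; norm_num
    · rw [← map_ofNat (AdjoinRoot.of ((X - C (-1 : ℂ)) ^ 2)) 3, ← map_mul]; norm_num

end Pool.Agent.Results.MP_adc81a_nt.Double
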